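import Pool.Agent.helper64.OT.SpecG

/-! # Project OT, block G (MP_f6e9a2_nt), row CEN: centres -/

set_option autoImplicit false

namespace Pool.Agent.OG

open Finset Pool.Agent.OT Pool.Agent.SPI Pool.Agent.helper85.PG
open scoped Pointwise

theorem CEN : CEN_stmt := by
  classical
  intro p _ V B hV
  obtain ⟨v0, hv0⟩ := hV
  -- good sets of centres
  let Good : Finset (ZMod p) → Prop := fun J =>
    J ⊆ B ∧ ∀ y ∈ J, ∀ y' ∈ J, ∀ v ∈ V, ∀ v' ∈ V, y + v = y' + v' → y = y'
  have hne : (B.powerset.filter Good).Nonempty := by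
    refine ⟨∅, ?_⟩
    rw [Finset.mem_filter]
    refine ⟨Finset.empty_mem_powerset B, Finset.empty_subset B, ?_⟩
    intro y hy
    exact absurd hy (Finset.notMem_empty y)
  obtain ⟨J, hJ, hmax⟩ := Finset.exists_max_image (B.powerset.filter Good) Finset.card hne
  obtain ⟨-, hJB, hJd⟩ := Finset.mem_filter.mp hJ
  have hcov : ∀ b ∈ B, ∃ y ∈ J, b - y ∈ V - V ∧ (b ∈ J → y = b) := by
    intro b hb
    by_cases hbJ : b ∈ J
    · exact ⟨b, hbJ, by rw [sub_self]; exact Finset.mem_sub.mpr ⟨v0, hv0, v0, hv0, sub_self v0⟩, fun _ => rfl⟩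
    · by_contra hcon
      push Not at hcon
      have hdis : ∀ y ∈ J, ∀ v ∈ V, ∀ v' ∈ V, y + v ≠ b + v' := by
        intro y hy v hv v' hv' h
        have h1 : b - y ∈ V - V := Finset.mem_sub.mpr ⟨v, hv, v', hv', by linear_combination h⟩
        obtain ⟨h2, -⟩ := hcon y hy h1
        exact hbJ h2
      have hgood : insert b J ∈ B.powerset.filter Good := by
        rw [Finset.mem_filter, Finset.mem_powerset]
        have hsub : insert b J ⊆ B := Finset.insert_subset hb hJB
        refine ⟨hsub, hsub, ?_⟩
        intro y hy y' hy' v hv v' hv' h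
        rcases Finset.mem_insert.mp hy with rfl | hy1
        · rcases Finset.mem_insert.mp hy' with rfl | hy1'
          · rfl
          · exact absurd h.symm (hdis y' hy1' v' hv' v hv)
        · rcases Finset.mem_insert.mp hy' with rfl | hy1'
          · exact absurd h (hdis y hy1 v hv v' hv')
          · exact hJd y hy1 y' hy1' v hv v' hv' h
      have h3 := hmax _ hgood
      rw [Finset.card_insert_of_notMem hbJ] at h3
      omega
  refine ⟨J, fun b => if h : b ∈ B then (hcov b h).choose else b, hJB, ?_, ?_, hJd⟩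
  · intro y hy
    have hyB := hJB hy
    show (if h : y ∈ B then (hcov y h).choose else y) = y
    rw [dif_pos hyB]
    exact (hcov y hyB).choose_spec.2.2 hy
  · intro b hb
    show (if h : b ∈ B then (hcov b h).choose else b) ∈ J ∧ b - (if h : b ∈ B then (hcov b h).choose else b) ∈ V - V
    rw [dif_pos hb]
    exact ⟨(hcov b hb).choose_spec.1, (hcov b hb).choose_spec.2.1⟩

end Pool.Agent.OG
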