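import Pool.Agent.helper64.OT.SpecG
import Pool.Agent.helper26.OT.COB
import Pool.Agent.helper85.PG.Basic

/-! # Project OT, block G (MP_f6e9a2_nt), row COH: core (b) -/

set_option autoImplicit false

namespace Pool.Agent.OG

open Finset Pool.Agent.OT Pool.Agent.SPI Pool.Agent.helper85.PG
open scoped Pointwise

theorem COH_const (d : ℕ) (ε : ℝ) (hε : 0 < ε) : ∃ p₀ : ℕ, ∀ p : ℕ, p₀ < p → (13 : ℝ) ^ d ≤ (p : ℝ) ^ (ε / 4) := by
  have h1 : Filter.Tendsto (fun n : ℕ => ((n : ℝ)) ^ (ε / 4)) Filter.atTop Filter.atTop :=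
    (tendsto_rpow_atTop (by positivity : 0 < ε / 4)).comp tendsto_natCast_atTop_atTop
  obtain ⟨p₀, hp₀⟩ := Filter.eventually_atTop.1 (h1.eventually_ge_atTop ((13 : ℝ) ^ d))
  exact ⟨p₀, fun p hp => hp₀ p hp.le⟩

theorem COH_card {p : ℕ} [Fact p.Prime] {d : ℕ} {P : ℝ → Finset (ZMod p)} (hP : IsSys p d P) (J B V W : Finset (ZMod p))
    {θ : ℝ} (hθ1 : θ ≤ 1) (hV : V = P (θ / 2)) (hJB : J ⊆ B)
    (hJd : ∀ y ∈ J, ∀ y' ∈ J, ∀ v ∈ V, ∀ v' ∈ V, y + v = y' + v' → y = y')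
    (hB : ∀ b ∈ B, ∃ w ∈ W, b - w ∈ P 2) : (J.card : ℝ) * V.card ≤ W.card * (P 3).card := by
  classical
  have h1 : (J ×ˢ V).card ≤ (W + P 3).card := by
    refine Finset.card_le_card_of_injOn (fun z => z.1 + z.2) ?_ ?_
    · intro z hz
      rw [Finset.mem_coe, Finset.mem_product] at hz
      obtain ⟨w, hw, hw2⟩ := hB z.1 (hJB hz.1)
      rw [Finset.mem_coe]
      have hz2 : z.2 ∈ P (θ / 2) := by rw [← hV]; exact hz.2
      have h2 : (z.1 - w) + z.2 ∈ P 3 := hP.mono (by linarith : 2 + θ / 2 ≤ 3) (hP.add_mem hw2 hz2)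
      refine Finset.mem_add.mpr ⟨w, hw, (z.1 - w) + z.2, h2, ?_⟩
      show w + ((z.1 - w) + z.2) = z.1 + z.2
      ring
    · intro z hz z' hz' h
      rw [Finset.mem_coe, Finset.mem_product] at hz hz'
      have h' : z.1 + z.2 = z'.1 + z'.2 := h
      have h3 := hJd z.1 hz.1 z'.1 hz'.1 z.2 hz.2 z'.2 hz'.2 h'
      have h4 : z.2 = z'.2 := by
        rw [h3] at h'
        exact add_left_cancel h'
      exact Prod.ext h3 h4
  rw [Finset.card_product] at h1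
  have h2 := h1.trans (Finset.card_add_le (s := W) (t := P 3))
  exact_mod_cast h2

theorem COH (hUNH : UNH_stmt) (hDYH : DYH_stmt) (hCEN : CEN_stmt) (hPKC : PKC_stmt) : COH_stmt := by
  classical
  intro d ε hε
  obtain ⟨κ₀, c, p₁, hκ, hκd, hc, h⟩ := hUNH d (ε / 2) (half_pos hε)
  obtain ⟨p₂, hp₂⟩ := COB_large c hc
  obtain ⟨p₃, hp₃⟩ := COH_const d ε hε
  refine ⟨c / 2, max p₁ (max p₂ p₃), by positivity, ?_⟩
  intro p _ hp χ P X B W β hχ hβ hP hX hW hB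
  have hpp₁ : p₁ < p := lt_of_le_of_lt (le_max_left _ _) hp
  have hpp₂ : p₂ < p := lt_of_le_of_lt ((le_max_left _ _).trans (le_max_right _ _)) hp
  have hpp₃ : p₃ < p := lt_of_le_of_lt ((le_max_right _ _).trans (le_max_right _ _)) hp
  have hp1 : (1 : ℝ) ≤ (p : ℝ) := by exact_mod_cast (Fact.out : p.Prime).one_lt.le
  have hp0 : (0 : ℝ) < (p : ℝ) := by linarith
  set θ : ℝ := (p : ℝ) ^ (-κ₀) with hθ
  have hθ0 : 0 < θ := Real.rpow_pos_of_pos hp0 _
  have hθ1 : θ ≤ 1 := Real.rpow_le_one_of_one_le_of_nonpos hp1 (by linarith)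
  obtain ⟨J, cl, hJB, -, hcl, hJd⟩ := hCEN p (P (θ / 2)) B ⟨0, hP.zero_mem (by positivity)⟩
  have hVpos : (0 : ℝ) < (P (θ / 2)).card := by exact_mod_cast hP.card_pos (by positivity)
  have hcard := COH_card hP J B (P (θ / 2)) W hθ1 rfl hJB hJd hB
  have hPK := (hPKC.2.2 p d P hP 3 (θ / 2) (by norm_num) (by positivity)).1
  have hJ : (J.card : ℝ) ≤ W.card * (1 + 2 * 3 / (θ / 2)) ^ d := by
    have h1 : (J.card : ℝ) * (P (θ / 2)).card ≤ (W.card * (1 + 2 * 3 / (θ / 2)) ^ d) * (P (θ / 2)).card := by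
      refine hcard.trans ?_
      rw [mul_assoc]
      exact mul_le_mul_of_nonneg_left hPK (Nat.cast_nonneg _)
    exact le_of_mul_le_mul_right h1 hVpos
  have hb : (1 + 2 * 3 / (θ / 2)) ^ d ≤ (13 : ℝ) ^ d * (p : ℝ) ^ (κ₀ * d) := by
    have h1 : (1 + 2 * 3 / (θ / 2) : ℝ) ≤ 13 * (p : ℝ) ^ κ₀ := by
      have h2 : (p : ℝ) ^ κ₀ = 1 / θ := by
        rw [hθ, Real.rpow_neg hp0.le, one_div, inv_inv]
      rw [h2]
      have h3 : (1 : ℝ) ≤ 1 / θ := by rw [le_div_iff₀ hθ0]; linarith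
      have h4 : (2 * 3 / (θ / 2) : ℝ) = 12 * (1 / θ) := by
        field_simp
        ring
      rw [h4]
      linarith
    calc (1 + 2 * 3 / (θ / 2)) ^ d ≤ (13 * (p : ℝ) ^ κ₀) ^ d := pow_le_pow_left₀ (by positivity) h1 d
      _ = (13 : ℝ) ^ d * (p : ℝ) ^ (κ₀ * d) := by
        rw [mul_pow, ← Real.rpow_natCast ((p : ℝ) ^ κ₀) d, ← Real.rpow_mul hp0.le]
  have hPJ : ((P 1).card : ℝ) * J.card ≤ (p : ℝ) ^ (1 - ε / 2) := by
    have h1 : (p : ℝ) ^ (κ₀ * d) ≤ (p : ℝ) ^ (ε / 4) :=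
      Real.rpow_le_rpow_of_exponent_le hp1 (by linarith)
    calc ((P 1).card : ℝ) * J.card ≤ (P 1).card * (W.card * ((13 : ℝ) ^ d * (p : ℝ) ^ (κ₀ * d))) :=
          mul_le_mul_of_nonneg_left (hJ.trans (mul_le_mul_of_nonneg_left hb (Nat.cast_nonneg _))) (Nat.cast_nonneg _)
      _ = ((P 1).card * W.card) * ((13 : ℝ) ^ d * (p : ℝ) ^ (κ₀ * d)) := by ring
      _ ≤ (p : ℝ) ^ (1 - ε) * ((p : ℝ) ^ (ε / 4) * (p : ℝ) ^ (ε / 4)) := by
          refine mul_le_mul hW (mul_le_mul (hp₃ p hpp₃) h1 (by positivity) (by positivity)) (by positivity)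
            (by positivity)
      _ = (p : ℝ) ^ (1 - ε / 2) := by
          rw [← Real.rpow_add hp0, ← Real.rpow_add hp0]
          congr 1
          ring
  obtain ⟨Ji, Bi, hsub, hsum, hcls⟩ := hDYH p J B cl fun b hb => (hcl b hb).1
  have hi : ∀ i, ∑ x ∈ X, ‖FB χ (Bi i) β x‖ ≤
      (p : ℝ) ^ (-c) * (Real.sqrt (p * (X.card * B.card)) + X.card * B.card) := by
    intro i
    have hc1 : ((Bi i).card : ℝ) ≤ B.card := by exact_mod_cast Finset.card_le_card (hsub i).2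
    have hc2 : ((Ji i).card : ℝ) ≤ J.card := by exact_mod_cast Finset.card_le_card (hsub i).1
    have h1 := h p hpp₁ χ P (Ji i) cl (2 ^ i) X (Bi i) β hχ hβ hP hX
      ((mul_le_mul_of_nonneg_left hc2 (Nat.cast_nonneg _)).trans hPJ)
      (fun b hb => ⟨(hcls i).1 b hb, by
        obtain ⟨v, hv, v', hv', hvv⟩ := Finset.mem_sub.mp (hcl b ((hsub i).2 hb)).2
        have h2 := hP.sub_mem hv hv'
        rw [hvv, add_halves] at h2
        exact h2⟩)
      (fun y hy y' hy' v hv v' hv' e => hJd y ((hsub i).1 hy) y' ((hsub i).1 hy') v hv v' hv' e)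
      (hcls i).2
    refine h1.trans (mul_le_mul_of_nonneg_left ?_ (Real.rpow_nonneg hp0.le _))
    have h2 : (X.card : ℝ) * (Bi i).card ≤ X.card * B.card :=
      mul_le_mul_of_nonneg_left hc1 (Nat.cast_nonneg _)
    refine add_le_add (Real.sqrt_le_sqrt ?_) h2
    exact mul_le_mul_of_nonneg_left h2 hp0.le
  have hT : 0 ≤ Real.sqrt (p * (X.card * B.card)) + (X.card : ℝ) * B.card := by positivity
  calc ∑ x ∈ X, ‖FB χ B β x‖
      ≤ ∑ x ∈ X, ∑ i ∈ range (Nat.log 2 p + 1), ‖FB χ (Bi i) β x‖ := by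
        refine Finset.sum_le_sum fun x _ => ?_
        have h1 : FB χ B β x = ∑ i ∈ range (Nat.log 2 p + 1), FB χ (Bi i) β x := by
          unfold Pool.Agent.OT.FB
          exact hsum _
        rw [h1]
        exact norm_sum_le _ _
    _ = ∑ i ∈ range (Nat.log 2 p + 1), ∑ x ∈ X, ‖FB χ (Bi i) β x‖ := Finset.sum_comm
    _ ≤ ∑ i ∈ range (Nat.log 2 p + 1), (p : ℝ) ^ (-c) *
        (Real.sqrt (p * (X.card * B.card)) + X.card * B.card) := Finset.sum_le_sum fun i _ => hi i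
    _ = ((Nat.log 2 p : ℝ) + 1) * ((p : ℝ) ^ (-c) *
        (Real.sqrt (p * (X.card * B.card)) + X.card * B.card)) := by
        rw [Finset.sum_const, Finset.card_range, nsmul_eq_mul]
        push_cast
        ring
    _ ≤ (p : ℝ) ^ (c / 2) * ((p : ℝ) ^ (-c) *
        (Real.sqrt (p * (X.card * B.card)) + X.card * B.card)) :=
        mul_le_mul_of_nonneg_right (hp₂ p hpp₂)
          (mul_nonneg (Real.rpow_nonneg hp0.le _) hT)
    _ = (p : ℝ) ^ (-(c / 2)) * (Real.sqrt (p * (X.card * B.card)) + X.card * B.card) := by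
        rw [← mul_assoc, ← Real.rpow_add hp0]
        congr 2
        ring

end Pool.Agent.OG
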