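import Pool.Agent.helper64.OT.SpecM

/-!
# Row ot:CSB (MP_f6e9a2_nt): the complete sum in the case of coincidences
-/

set_option autoImplicit false

namespace Pool.Agent.OT

open Finset

/-- the finite part of `CS` -/
noncomputable def CSB_S {p : ℕ} [NeZero p] (χ : MulChar (ZMod p) ℂ) (a b c d : ZMod p) : ℂ :=
  ∑ u : ZMod p, (χ (a + u) * χ (b + u)) * (starRingEnd ℂ) (χ (c + u) * χ (d + u))

theorem CSB_eq {p : ℕ} [NeZero p] (χ : MulChar (ZMod p) ℂ) (x₁ x₂ x₃ x₄ : ZMod p) :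
    CS χ x₁ x₂ x₃ x₄ = 1 + CSB_S χ x₁ x₃ x₂ x₄ := by
  unfold CS CSB_S
  rw [Fintype.sum_option]
  simp [ch]

theorem CSB_s1 {p : ℕ} [NeZero p] (χ : MulChar (ZMod p) ℂ) (a b c d : ZMod p) : CSB_S χ a b c d = CSB_S χ b a c d := by
  unfold CSB_S
  refine sum_congr rfl fun u _ => ?_
  rw [mul_comm (χ (a + u))]

theorem CSB_s2 {p : ℕ} [NeZero p] (χ : MulChar (ZMod p) ℂ) (a b c d : ZMod p) : CSB_S χ a b c d = CSB_S χ a b d c := by
  unfold CSB_S
  refine sum_congr rfl fun u _ => ?_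
  rw [mul_comm (χ (c + u))]

theorem CSB_cj {p : ℕ} [NeZero p] (χ : MulChar (ZMod p) ℂ) (a b c d : ZMod p) :
    ‖CSB_S χ a b c d‖ = ‖CSB_S χ c d a b‖ := by
  have : CSB_S χ a b c d = (starRingEnd ℂ) (CSB_S χ c d a b) := by
    unfold CSB_S
    rw [map_sum]
    refine sum_congr rfl fun u _ => ?_
    simp only [map_mul, Complex.conj_conj]
    ring
  rw [this, RCLike.norm_conj]

theorem CSB_one {p : ℕ} [Fact p.Prime] (χ : MulChar (ZMod p) ℂ) (x : ZMod p) (hx : x ≠ 0) : ‖χ x‖ = 1 := by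
  have h0 : Fintype.card (ZMod p)ˣ ≠ 0 := Fintype.card_ne_zero
  have h1 : χ x ^ Fintype.card (ZMod p)ˣ = 1 := by
    rw [← map_pow]
    have : x ^ Fintype.card (ZMod p)ˣ = 1 := by
      rw [ZMod.card_units p]
      exact ZMod.pow_card_sub_one_eq_one hx
    rw [this, map_one]
  exact Complex.norm_eq_one_of_pow_eq_one h1 h0

theorem CSB_A {p : ℕ} [Fact p.Prime] (χ : MulChar (ZMod p) ℂ) (hχ : χ ≠ 1) (a b d : ZMod p) (hbd : b ≠ d) :
    ‖CSB_S χ a b a d‖ ≤ 1 + Real.sqrt p := by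
  have e : CSB_S χ a b a d = (∑ u : ZMod p, χ (b + u) * (starRingEnd ℂ) (χ (d + u))) -
      χ (b + -a) * (starRingEnd ℂ) (χ (d + -a)) := by
    rw [eq_sub_iff_add_eq]
    unfold CSB_S
    rw [← Finset.add_sum_erase univ _ (mem_univ (-a)),
      ← Finset.add_sum_erase univ (fun u => χ (b + u) * (starRingEnd ℂ) (χ (d + u))) (mem_univ (-a))]
    have h0 : χ (a + -a) = 0 := by rw [add_neg_cancel, MulChar.map_zero]
    rw [h0, zero_mul, zero_mul, zero_add, add_comm]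
    congr 1
    refine sum_congr rfl fun u hu => ?_
    have hne : a + u ≠ 0 := by
      intro h
      apply (mem_erase.1 hu).1
      rw [eq_neg_iff_add_eq_zero, add_comm]
      exact h
    have h1 : χ (a + u) * (starRingEnd ℂ) (χ (a + u)) = 1 := by
      rw [Complex.mul_conj, Complex.normSq_eq_norm_sq, CSB_one χ _ hne]
      simp
    rw [map_mul]
    linear_combination (χ (b + u) * (starRingEnd ℂ) (χ (d + u))) * h1
  have hw : ‖∑ u : ZMod p, χ (b + u) * (starRingEnd ℂ) (χ (d + u))‖ ≤ Real.sqrt p := by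
    have h := Pool.Agent.helper82.Weil.weil_shift χ hχ ![b, d] ![1, Fintype.card (ZMod p) - 2] 0 rfl (by
      intro i hi
      fin_cases i
      · exact absurd rfl hi
      · exact hbd.symm)
    rw [ZMod.card] at h
    have e2 : ∀ u : ZMod p, χ (∏ i : Fin 2, ((![b, d] : Fin 2 → ZMod p) i + u) ^ ((![1, p - 2] : Fin 2 → ℕ) i)) =
        χ (b + u) * (starRingEnd ℂ) (χ (d + u)) := by
      intro u
      rw [Pool.Agent.helper82.Weil.conj_chi χ hχ, ZMod.card, Fin.prod_univ_two, map_mul]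
      simp
    simp only [e2] at h
    simpa using h
  rw [e]
  refine (norm_sub_le _ _).trans ?_
  have h2 : ‖χ (b + -a) * (starRingEnd ℂ) (χ (d + -a))‖ ≤ 1 := by
    rw [norm_mul, RCLike.norm_conj]
    exact mul_le_one₀ (Pool.Agent.helper82.Weil.norm_chi_le χ _) (norm_nonneg _) (Pool.Agent.helper82.Weil.norm_chi_le χ _)
  linarith

theorem CSB_B {p : ℕ} [Fact p.Prime] (χ : MulChar (ZMod p) ℂ) (hχ : χ ≠ 1) (a c d : ZMod p) (hcd : c ≠ d) (hca : c ≠ a) :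
    ‖CSB_S χ a a c d‖ ≤ 2 * Real.sqrt p := by
  rw [CSB_cj]
  have h := Pool.Agent.helper82.Weil.weil_shift χ hχ ![c, d, a] ![1, 1, (Fintype.card (ZMod p) - 2) * 2] 0 rfl (by
    intro i hi
    fin_cases i
    · exact absurd rfl hi
    · exact hcd.symm
    · exact hca.symm)
  rw [ZMod.card] at h
  have e2 : ∀ u : ZMod p, χ (∏ i : Fin 3, ((![c, d, a] : Fin 3 → ZMod p) i + u) ^ ((![1, 1, (p - 2) * 2] : Fin 3 → ℕ) i)) =
      (χ (c + u) * χ (d + u)) * (starRingEnd ℂ) (χ (a + u) * χ (a + u)) := by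
    intro u
    rw [map_mul, Pool.Agent.helper82.Weil.conj_chi χ hχ, ZMod.card, Fin.prod_univ_three, map_mul, map_mul, ← sq, ← map_pow, ← pow_mul]
    simp
  simp only [e2] at h
  unfold CSB_S
  refine h.trans ?_
  rw [Fintype.card_fin]
  norm_num

theorem CSB : CSB_stmt := by
  intro p _ χ x₁ x₂ x₃ x₄ hχ hco h1 h2 h3
  have hp : (1 : ℝ) ≤ p := by exact_mod_cast (Fact.out : p.Prime).one_lt.le
  have hs : 1 ≤ Real.sqrt p := by
    rw [Real.one_le_sqrt]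
    exact hp
  have hA : ∀ a b d : ZMod p, b ≠ d → ‖CSB_S χ a b a d‖ ≤ 2 * Real.sqrt p := fun a b d hbd =>
    (CSB_A χ hχ a b d hbd).trans (by linarith)
  have hS : ‖CSB_S χ x₁ x₃ x₂ x₄‖ ≤ 2 * Real.sqrt p := by
    by_cases c1 : x₁ = x₂
    · subst c1
      exact hA _ _ _ fun h => h1 ⟨rfl, h⟩
    by_cases c2 : x₁ = x₄
    · subst c2
      rw [CSB_s2]
      exact hA _ _ _ fun h => h2 ⟨rfl, h.symm⟩
    by_cases c3 : x₂ = x₃
    · subst c3
      rw [CSB_s1]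
      exact hA _ _ _ fun h => h2 ⟨h, rfl⟩
    by_cases c4 : x₃ = x₄
    · subst c4
      rw [CSB_s1, CSB_s2]
      exact hA _ _ _ fun h => h1 ⟨h, rfl⟩
    by_cases c5 : x₁ = x₃
    · subst c5
      exact CSB_B χ hχ _ _ _ (fun h => h3 ⟨rfl, h⟩) (fun h => c1 h.symm)
    · have c6 : x₂ = x₄ := by tauto
      subst c6
      rw [CSB_cj]
      exact CSB_B χ hχ _ _ _ c5 c1
  have hC : ‖CS χ x₁ x₂ x₃ x₄‖ ≤ 3 * Real.sqrt p := by
    rw [CSB_eq]
    refine (norm_add_le _ _).trans ?_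
    rw [norm_one]
    linarith
  calc ‖CS χ x₁ x₂ x₃ x₄‖ ^ 2 ≤ (3 * Real.sqrt p) ^ 2 := pow_le_pow_left₀ (norm_nonneg _) hC 2
    _ = 9 * p := by
      rw [mul_pow, Real.sq_sqrt (by linarith)]
      norm_num

end Pool.Agent.OT
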